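import Pool.Agent.H31.CC

namespace Pool.Agent.Results.MP_1b9d6e_gt.Main

open Pool.Agent.H31.CC Pool.Agent.H31.WF TopologicalSpace

universe u

theorem result (X : Type u) [t : TopologicalSpace X] [T0Space X]
    (h : CoreCompact (Closeds X) (scott (Closeds X))) : CoreCompact X t :=
  main h

end Pool.Agent.Results.MP_1b9d6e_gt.Main
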